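import Mathlib
import Pool.Agent.Y73.SL.Main

set_option autoImplicit false

namespace Pool.Agent.Results.MP_0a2dc5_al.CubesOfAbelianGroups

universe u v w

/-- Let `B` be an abelian group. The subgroup lattice of `B × B × B` embeds into the lattice of
subspaces of some vector space `V` over some division ring `D` if and only if `p B = 0` for some
prime `p`. For `B = ℤ/4` or `B = ℤ/6` this gives finite abelian groups whose subgroup lattice
embeds into no such lattice. -/
theorem result (B : Type u) [AddCommGroup B] :
    (∃ (D : Type v) (_ : DivisionRing D) (V : Type (max u w)) (_ : AddCommGroup V)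
        (_ : Module D V) (f : AddSubgroup (B × B × B) → Submodule D V),
        Function.Injective f ∧ (∀ H K, f (H ⊓ K) = f H ⊓ f K) ∧
          (∀ H K, f (H ⊔ K) = f H ⊔ f K)) ↔
      ∃ p : ℕ, p.Prime ∧ ∀ b : B, p • b = 0 := by
  constructor
  · rintro ⟨D, _, V, _, _, f, hf⟩
    exact Pool.Agent.Y73.SL.Emb.prime (D := D) (V := V) ⟨f, hf⟩
  · rintro ⟨p, hp, h⟩
    obtain ⟨D, h1, V, h2, h3, f, hf⟩ :=
      Pool.Agent.Y73.SL.exists_emb.{u, v, w} (B × B × B) p hp fun a => by
        ext
        · exact h a.1
        · exact h a.2.1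
        · exact h a.2.2
    exact ⟨D, h1, V, h2, h3, f, hf⟩

end Pool.Agent.Results.MP_0a2dc5_al.CubesOfAbelianGroups
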